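import Pool.Agent.Helper57_K9.Stmts
import Pool.Agent.Helper50_PP.Ffa
import Pool.Agent.Helper50_PP.Bid
import Pool.Agent.Helper20_PP.Nls
import Pool.Agent.Helper56_KF.Ct4
import Pool.Agent.Helper74_D2.Bld
import Pool.Agent.Helper66_D2.AsmD2

/-!
# Squad K9, row CHQ: the chains through a subgroup of order `ℓ` cancel
-/

open scoped BigOperators

set_option linter.unusedSectionVars false

noncomputable section

namespace Pool.Agent.PP.K9.H35

open Pool.Agent.Helper51_AWC Pool.Agent.Helper79_WRA Pool.Agent.PP Pool.Agent.PP.KF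

attribute [local instance] Ideal.Quotient.field

/-! ### 1. Preimages -/

section up

variable {F : Type} [Field F] {G A : Type} [Group G] [Finite G] [Group A] [Finite A]
  {N : Subgroup G}

/-- the preimage in `G` -/
def up (p : N →* A) (T : Subgroup A) : Subgroup G := (T.comap p).map N.subtype

theorem mem_up {p : N →* A} {T : Subgroup A} {x : G} :
    x ∈ up p T ↔ ∃ h : x ∈ N, p ⟨x, h⟩ ∈ T := by
  constructor
  · rintro ⟨y, hy, rfl⟩
    exact ⟨y.2, hy⟩
  · rintro ⟨h, hx⟩
    exact ⟨⟨x, h⟩, hx, rfl⟩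

theorem card_up {p : N →* A} (hp : Function.Surjective p) (T : Subgroup A) :
    Nat.card (up p T) = Nat.card p.ker * Nat.card T := by
  rw [up, Subgroup.card_map_of_injective N.subtype_injective, PP.H75.card_comap hp]

theorem up_le (p : N →* A) (T : Subgroup A) : up p T ≤ N := by
  rintro _ ⟨y, _, rfl⟩
  exact y.2

theorem up_subgroupOf (p : N →* A) (T : Subgroup A) : (up p T).subgroupOf N = T.comap p :=
  Subgroup.comap_map_eq_self_of_injective N.subtype_injective _

theorem up_norm {p : N →* A} (hp : Function.Surjective p) (T : Subgroup A) :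
    up p (Subgroup.normalizer (T : Set A)) = N ⊓ Subgroup.normalizer ((up p T : Subgroup G) : Set G) := by
  ext x
  rw [mem_up, Subgroup.mem_inf]
  constructor
  · rintro ⟨h, hx⟩
    refine ⟨h, ?_⟩
    rw [← PP.H75.normalizer_comap hp T ⟨x, h⟩, ← up_subgroupOf] at hx
    exact (KF.H56.mem_norm_sub (up_le p T) ⟨x, h⟩).1 hx
  · rintro ⟨h, hx⟩
    refine ⟨h, ?_⟩
    rw [← PP.H75.normalizer_comap hp T ⟨x, h⟩, ← up_subgroupOf]
    exact (KF.H56.mem_norm_sub (up_le p T) ⟨x, h⟩).2 hx

theorem up_top (p : N →* A) : up p ⊤ = N := by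
  ext x
  rw [mem_up]
  exact ⟨fun h => h.1, fun h => ⟨h, Subgroup.mem_top _⟩⟩

theorem lnum_up {ℓ : ℕ} (hF : GoodF ℓ F) {p : N →* A} (hp : Function.Surjective p)
    (hk : IsPGroup ℓ p.ker) (T : Subgroup A) (a : G → F) :
    lnum (up p T) a = lnum T (PP.H75.push p (fun t : N => a t)) := by
  rw [up, PP.H75.lnum_map _ N.subtype_injective, ← PP.H75.lnum_comap H20.nls hF hp hk]
  rfl

/-- the good subgroups of the quotient -/
theorem card_good (hpug : PugStmt) {ℓ : ℕ} [Fact ℓ.Prime] (hF : GoodF ℓ F) {Q : Subgroup G}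
    (hQ : Nat.card Q = ℓ) {p : Subgroup.normalizer (Q : Set G) →* A}
    (hp : Function.Surjective p) (hk : p.ker = Q.subgroupOf (Subgroup.normalizer (Q : Set G)))
    {e : G → F} (hf : IsIdem (fun t : Subgroup.normalizer (Q : Set G) => br Q e t))
    (hmx : ∀ R : Subgroup G, IsPGroup ℓ R → Gd e R → Nat.card R ≤ ℓ ^ 2)
    (R : Subgroup A) (hR : IsPGroup ℓ R)
    (hg : Gd (PP.H75.push p (fun t : Subgroup.normalizer (Q : Set G) => br Q e t)) R) :
    Nat.card R ≤ ℓ := by
  have hpr : ℓ.Prime := Fact.out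
  have hkc : Nat.card p.ker = ℓ := by
    rw [hk, ← hQ]
    exact Nat.card_congr (Subgroup.subgroupOfEquivOfLe Subgroup.le_normalizer).toEquiv
  have hkp : IsPGroup ℓ p.ker := IsPGroup.of_card (n := 1) (by rw [hkc, pow_one])
  have h1 : p.ker ≤ R.comap p := by
    intro x hx
    rw [MonoidHom.mem_ker] at hx
    rw [Subgroup.mem_comap, hx]
    exact R.one_mem
  have h2 : IsPGroup ℓ (R.comap p) := (PP.H75.isPGroup_comap_iff hp hkp R).2 hR
  have h3 := (hpug ℓ F hF _ A p hp hkp _ hf (R.comap p) h1 h2).2 (by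
    rw [Subgroup.map_comap_eq_self_of_surjective hp]
    exact hg)
  obtain ⟨x, hx, hx2⟩ := h3
  have h4 : Gd e (up p R) := by
    refine ⟨(x : G), ?_, ?_⟩
    · rw [Subgroup.mem_centralizer_iff]
      rintro _ ⟨y, hy, rfl⟩
      exact congrArg Subtype.val (Subgroup.mem_centralizer_iff.1 hx y hy)
    · intro h0
      apply hx2
      by_cases hc : (x : G) ∈ Subgroup.centralizer (Q : Set G)
      · change br Q e x = 0
        rw [H66.br_of_mem hc, h0]
      · exact H66.br_of_not_mem hc
  have h5 := hmx (up p R) (h2.map _) h4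
  rw [card_up hp, hkc, pow_two] at h5
  exact Nat.le_of_mul_le_mul_left h5 hpr.pos

end up

/-! ### 2. Nilpotent class sums -/

section nil

variable {F : Type} [Field F] {K : Type} [Group K] [Finite K]

/-- the class sums of defect zero are nilpotent on a block with a good subgroup `R ≠ 1` -/
theorem nil_of_good {ℓ : ℕ} [Fact ℓ.Prime] (hF : GoodF ℓ F) {γ : K → F} (hγ : IsBlk γ)
    {R : Subgroup K} (hR : Nat.card R = ℓ) (hg : Gd γ R) {x : K}
    (hx : ¬ ℓ ∣ Nat.card (Subgroup.centralizer ({x} : Set K))) :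
    ∃ n : ℕ, (mulF (clsum F ⊤ x))^[n] γ = 0 := by
  rcases H50.blk_dich hγ (H50.isCl_clsum (F := F) x) with h | ⟨c, hc, h⟩
  · exact h
  exfalso
  have hRp : IsPGroup ℓ R := IsPGroup.of_card (n := 1) (by rw [hR, pow_one])
  have h1 : br R (clsum F ⊤ x) = (0 : K → F) := by
    funext t
    by_cases ht : t ∈ Subgroup.centralizer (R : Set K)
    · rw [H66.br_of_mem ht]
      unfold clsum
      rw [if_neg]
      · rfl
      rintro ⟨q, _, rfl⟩
      apply hx
      have h2 : conjS q⁻¹ R ≤ Subgroup.centralizer ({x} : Set K) := by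
        intro y hy
        rw [mem_conjS] at hy
        have h3 := Subgroup.mem_centralizer_iff.1 ht _ hy
        rw [Subgroup.mem_centralizer_singleton_iff]
        have h4 : q⁻¹ * (q⁻¹⁻¹ * y * q⁻¹ * (q * x * q⁻¹)) * q = q⁻¹ * (q * x * q⁻¹ * (q⁻¹⁻¹ * y * q⁻¹)) * q := by
          rw [h3]
        have h5 : q⁻¹ * (q⁻¹⁻¹ * y * q⁻¹ * (q * x * q⁻¹)) * q = y * x := by group
        have h6 : q⁻¹ * (q * x * q⁻¹ * (q⁻¹⁻¹ * y * q⁻¹)) * q = x * y := by group
        rw [h5, h6] at h4
        exact h4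
      have h3 := Subgroup.card_dvd_of_le h2
      rwa [card_conjS, hR] at h3
    · exact H66.br_of_not_mem ht
  have h2 : IsCl (clsum F ⊤ x) := H50.isCl_clsum x
  have h3 : br R (mulF (mulF c (clsum F ⊤ x)) γ) = (0 : K → F) := by
    rw [H66.br_mulF hF hRp (H66.IsCl.inv (H50.isCl_mulF hc h2) R) (H66.IsCl.inv hγ.1.1 R),
      H66.br_mulF hF hRp (H66.IsCl.inv hc R) (H66.IsCl.inv h2 R), h1,
      PP.H75.mulF_zero_right, PP.H75.mulF_zero_left]
  rw [h] at h3
  obtain ⟨t, ht, ht2⟩ := hg
  apply ht2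
  rw [← H66.br_of_mem (a := γ) ht, h3]
  rfl

end nil

/-! ### 3. The image of the idempotent has positive defect -/

section pos

variable {F : Type} [Field F] {C A : Type} [Group C] [Finite C] [Group A] [Finite A]

theorem push_range (q : C →* A) (g : C → F) :
    (fun y : q.range => PP.H75.push q g y) = PP.H75.push q.rangeRestrict g := by
  classical
  have := Fintype.ofFinite C
  funext y
  rw [PP.H75.push_eq, PP.H75.push_eq]
  refine Finset.sum_congr rfl fun x _ => ?_
  by_cases h : q x = (y : A)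
  · rw [if_pos h, if_pos (Subtype.ext h)]
  · rw [if_neg h, if_neg (fun h' => h (congrArg Subtype.val h'))]

theorem push_off (q : C →* A) (g : C → F) {y : A} (hy : y ∉ q.range) :
    PP.H75.push q g y = 0 := by
  classical
  have := Fintype.ofFinite C
  rw [PP.H75.push_eq]
  refine Finset.sum_eq_zero fun x _ => ?_
  rw [if_neg]
  rintro rfl
  exact hy ⟨x, rfl⟩

theorem push_sum {m : ℕ} (q : C →* A) (g : Fin m → C → F) :
    PP.H75.push q (∑ t, g t) = ∑ t, PP.H75.push q (g t) := by
  classical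
  have := Fintype.ofFinite C
  funext y
  rw [PP.H75.push_eq, Finset.sum_apply]
  simp only [PP.H75.push_eq]
  rw [Finset.sum_comm]
  refine Finset.sum_congr rfl fun x _ => ?_
  split_ifs
  · rw [Finset.sum_apply]
  · rw [Finset.sum_const_zero]

theorem iter_off {K : Subgroup A} {a b : A → F} (ha : ∀ t, t ∉ K → a t = 0)
    (hb : ∀ t, t ∉ K → b t = 0) (n : ℕ) : ∀ t, t ∉ K → (mulF a)^[n] b t = 0 := by
  induction n with
  | zero => exact hb
  | succ n ih =>
    rw [Function.iterate_succ_apply']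
    exact PP.H75.mulF_supp K ha ih

theorem clsum_sub (K : Subgroup A) (x : K) :
    (fun t : K => clsum F K (x : A) t) = clsum F (⊤ : Subgroup K) x := by
  funext t
  unfold clsum
  by_cases h : ∃ q ∈ K, (t : A) = q * (x : A) * q⁻¹
  · rw [if_pos h, if_pos]
    obtain ⟨q, hq, h⟩ := h
    exact ⟨⟨q, hq⟩, Subgroup.mem_top _, Subtype.ext h⟩
  · rw [if_neg h, if_neg]
    rintro ⟨q, _, rfl⟩
    exact h ⟨q, q.2, rfl⟩

theorem clsum_off (K : Subgroup A) {x : A} (hx : x ∈ K) : ∀ t, t ∉ K → clsum F K x t = 0 := by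
  intro t ht
  unfold clsum
  rw [if_neg]
  rintro ⟨q, hq, rfl⟩
  exact ht (mul_mem (mul_mem hq hx) (inv_mem hq))

theorem pos_push (hpug : PugStmt) {ℓ : ℕ} [Fact ℓ.Prime] (hF : GoodF ℓ F) {Q : Subgroup C}
    (hQ : Nat.card Q = ℓ) (hQc : Q ≤ Subgroup.center C) {q : C →* A} (hq : q.ker = Q)
    {e : C → F} (he : IsIdem e)
    (hduc : ∀ g : C → F, IsBlk g → mulF e g = g →
      ∃ P : Subgroup C, Nat.card P = ℓ ^ 2 ∧ Gd g P ∧ Q ≤ P) :
    Pos ℓ (PP.H75.push q e) q.range := by
  classical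
  have hpr : ℓ.Prime := Fact.out
  intro x hx hd
  obtain ⟨m, g, hg, _, hs⟩ := CD2.H74.dec e he
  have key : ∀ t, ∃ n, (mulF (clsum F q.range x))^[n] (PP.H75.push q (g t)) = 0 := by
    intro t
    obtain ⟨P, hP, hgd, hQP⟩ := hduc (g t) (hg t).1 (hg t).2
    have hsur : Function.Surjective q.rangeRestrict := q.rangeRestrict_surjective
    have hker : q.rangeRestrict.ker = Q := by rw [MonoidHom.ker_rangeRestrict, hq]
    have hkp : IsPGroup ℓ q.rangeRestrict.ker := by
      rw [hker]
      exact IsPGroup.of_card (n := 1) (by rw [hQ, pow_one])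
    -- a generator
    have hcyc : IsCyclic Q := isCyclic_of_prime_card hQ
    obtain ⟨y, hy⟩ := hcyc.exists_generator
    have hyQ : Subgroup.zpowers (y : C) = Q := by
      refine le_antisymm (Subgroup.zpowers_le.2 y.2) ?_
      intro z hz
      obtain ⟨k, hk⟩ := Subgroup.mem_zpowers_iff.1 (hy ⟨z, hz⟩)
      exact Subgroup.mem_zpowers_iff.2 ⟨k, congrArg Subtype.val hk⟩
    have hyo : orderOf (y : C) = ℓ := by
      rw [← Nat.card_zpowers, hyQ, hQ]
    have hblk : IsBlk (PP.H75.push q.rangeRestrict (g t)) :=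
      CD2.H24.psb ℓ F hF C q.range q.rangeRestrict hsur (y : C) hyo (hQc y.2)
        (hker.trans hyQ.symm) (g t) (hg t).1
    have hPp : IsPGroup ℓ P := IsPGroup.of_card (n := 2) hP
    have hgood := (hpug ℓ F hF C q.range q.rangeRestrict hsur hkp (g t) (hg t).1.1 P
      (hker.le.trans hQP) hPp).1 hgd
    have hcard : Nat.card (P.map q.rangeRestrict) = ℓ := by
      have h1 := PP.H75.card_comap hsur (P.map q.rangeRestrict)
      rw [Subgroup.comap_map_eq_self (hker.le.trans hQP), hker, hQ, hP, pow_two] at h1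
      exact (Nat.eq_of_mul_eq_mul_left hpr.pos h1).symm
    have hx' : ¬ ℓ ∣ Nat.card (Subgroup.centralizer ({(⟨x, hx⟩ : q.range)} : Set q.range)) := by
      intro h
      apply hd
      refine h.trans (dvd_of_eq ?_)
      refine Nat.card_congr
        { toFun := fun y => ⟨y.1.1, ?_⟩
          invFun := fun y => ⟨⟨y.1, y.2.2⟩, ?_⟩
          left_inv := fun y => rfl
          right_inv := fun y => rfl }
      · refine ⟨?_, y.1.2⟩
        have h1 := Subgroup.mem_centralizer_singleton_iff.1 y.2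
        exact Subgroup.mem_centralizer_singleton_iff.2 (congrArg Subtype.val h1)
      · have h1 := Subgroup.mem_centralizer_singleton_iff.1 y.2.1
        exact Subgroup.mem_centralizer_singleton_iff.2 (Subtype.ext h1)
    obtain ⟨n, hn⟩ := nil_of_good hF hblk hcard hgood hx'
    refine ⟨n, ?_⟩
    funext a
    by_cases ha : a ∈ q.range
    · have h1 := H66.iter_sub (X := q.range) (a := clsum F q.range x)
        (b := PP.H75.push q (g t)) (clsum_off _ hx) n
      rw [push_range, clsum_sub q.range ⟨x, hx⟩, hn] at h1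
      exact congrFun h1 ⟨a, ha⟩
    · exact iter_off (clsum_off _ hx) (fun t ht => push_off q _ ht) n a ha
  choose n hn using key
  refine ⟨∑ t, n t, ?_⟩
  apply ma_injective
  rw [ma_iterate, ma_zero, ← hs, push_sum, ma_sum, Finset.mul_sum]
  refine Finset.sum_eq_zero fun t _ => ?_
  have h1 : n t ≤ ∑ t, n t := Finset.single_le_sum (fun _ _ => Nat.zero_le _) (Finset.mem_univ t)
  rw [← Nat.sub_add_cancel h1, pow_add, mul_assoc, ← ma_iterate, hn, ma_zero, mul_zero]

end pos

/-! ### 4. The alternating sum of the quotient -/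

section yy

variable {F : Type} [Field F] {G A : Type} [Group G] [Finite G] [Group A] [Finite A]

theorem push_cent {Q : Subgroup G} (p : Subgroup.normalizer (Q : Set G) →* A)
    (hCN : Subgroup.centralizer (Q : Set G) ≤ Subgroup.normalizer (Q : Set G)) (e : G → F) :
    PP.H75.push p (fun t : Subgroup.normalizer (Q : Set G) => br Q e t) =
      PP.H75.push (p.comp (Subgroup.inclusion hCN))
        (fun t : Subgroup.centralizer (Q : Set G) => e t) := by
  classical
  have := Fintype.ofFinite G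
  funext y
  rw [PP.H75.push_eq, PP.H75.push_eq]
  symm
  refine Finset.sum_of_injOn (Subgroup.inclusion hCN)
    (fun a _ b _ h => Subgroup.inclusion_injective hCN h) (fun _ _ => Finset.mem_coe.2 (Finset.mem_univ _)) ?_ ?_
  · intro x _ hx
    have h1 : (x : G) ∉ Subgroup.centralizer (Q : Set G) := by
      intro h
      exact hx ⟨⟨(x : G), h⟩, Finset.mem_coe.2 (Finset.mem_univ _), rfl⟩
    rw [H66.br_of_not_mem h1]
    split_ifs <;> rfl
  · intro x _
    have h1 : ((Subgroup.inclusion hCN x : Subgroup.normalizer (Q : Set G)) : G) ∈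
        Subgroup.centralizer (Q : Set G) := x.2
    rw [H66.br_of_mem h1]
    rfl

theorem yy_zero (hpug : PugStmt) {ℓ : ℕ} [Fact ℓ.Prime] (hF : GoodF ℓ F) {Q : Subgroup G}
    (hQ : Nat.card Q = ℓ) {p : Subgroup.normalizer (Q : Set G) →* A}
    (hp : Function.Surjective p) (hk : p.ker = Q.subgroupOf (Subgroup.normalizer (Q : Set G)))
    {e : G → F} (he : IsIdem e)
    (hf : IsIdem (fun t : Subgroup.normalizer (Q : Set G) => br Q e t))
    (hmx : ∀ R : Subgroup G, IsPGroup ℓ R → Gd e R → Nat.card R ≤ ℓ ^ 2)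
    (hduc : ∀ g : Subgroup.centralizer (Q : Set G) → F, IsBlk g →
      mulF (fun t : Subgroup.centralizer (Q : Set G) => e t) g = g →
      ∃ P : Subgroup (Subgroup.centralizer (Q : Set G)), Nat.card P = ℓ ^ 2 ∧ Gd g P ∧
        Q.subgroupOf (Subgroup.centralizer (Q : Set G)) ≤ P) :
    YY ℓ ⊤ (PP.H75.push p (fun t : Subgroup.normalizer (Q : Set G) => br Q e t)) = 0 := by
  have hpr : ℓ.Prime := Fact.out
  have hCN : Subgroup.centralizer (Q : Set G) ≤ Subgroup.normalizer (Q : Set G) :=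
    Subgroup.centralizer_le_normalizer _
  have hQp : IsPGroup ℓ Q := IsPGroup.of_card (n := 1) (by rw [hQ, pow_one])
  have hQa : ∀ a ∈ Q, ∀ b ∈ Q, a * b = b * a := by
    have : IsCyclic Q := isCyclic_of_prime_card hQ
    have h1 := (IsCyclic.isMulCommutative (α := Q)).is_comm.comm
    intro a ha b hb
    exact congrArg Subtype.val (h1 ⟨a, ha⟩ ⟨b, hb⟩)
  have hQC : Q ≤ Subgroup.centralizer (Q : Set G) := by
    intro a ha
    rw [Subgroup.mem_centralizer_iff]
    intro b hb
    exact hQa b hb a ha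
  have heC : IsIdem (fun t : Subgroup.centralizer (Q : Set G) => e t) := by
    have h1 := (H20.brm ℓ F hF G Q (Subgroup.centralizer (Q : Set G)) hQp le_rfl hCN).2.2 e he
    have h2 : (fun t : Subgroup.centralizer (Q : Set G) => br Q e t) =
        fun t : Subgroup.centralizer (Q : Set G) => e t := by
      funext t
      exact H66.br_of_mem t.2
    rwa [h2] at h1
  have hnorm : (p.comp (Subgroup.inclusion hCN)).range.Normal := by
    constructor
    rintro _ ⟨c, rfl⟩ a
    obtain ⟨n, rfl⟩ := hp a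
    have h1 : (n : G) * c * (n : G)⁻¹ ∈ Subgroup.centralizer (Q : Set G) := by
      rw [Subgroup.mem_centralizer_iff]
      intro b hb
      have h2 : (n : G)⁻¹ * b * n ∈ Q := by
        have := (Subgroup.mem_normalizer_iff.1 (inv_mem n.2) b).1 hb
        rwa [inv_inv] at this
      have h3 := Subgroup.mem_centralizer_iff.1 c.2 _ h2
      calc b * ((n : G) * c * (n : G)⁻¹) = n * ((n : G)⁻¹ * b * n * c) * (n : G)⁻¹ := by group
        _ = n * (c * ((n : G)⁻¹ * b * n)) * (n : G)⁻¹ := by rw [h3]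
        _ = (n : G) * c * (n : G)⁻¹ * b := by group
    refine ⟨⟨_, h1⟩, ?_⟩
    change p _ = p n * p (Subgroup.inclusion hCN c) * (p n)⁻¹
    rw [← map_inv, ← map_mul, ← map_mul]
    rfl
  have hQcard : Nat.card (Q.subgroupOf (Subgroup.centralizer (Q : Set G))) = ℓ := by
    rw [← hQ]
    exact Nat.card_congr (Subgroup.subgroupOfEquivOfLe hQC).toEquiv
  have hQcen : Q.subgroupOf (Subgroup.centralizer (Q : Set G)) ≤
      Subgroup.center (Subgroup.centralizer (Q : Set G)) := by
    intro x hx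
    rw [Subgroup.mem_center_iff]
    intro y
    apply Subtype.ext
    exact (Subgroup.mem_centralizer_iff.1 y.2 x hx).symm
  have hker : (p.comp (Subgroup.inclusion hCN)).ker =
      Q.subgroupOf (Subgroup.centralizer (Q : Set G)) := by
    ext x
    rw [MonoidHom.mem_ker, MonoidHom.comp_apply, ← MonoidHom.mem_ker, hk]
    rfl
  have hpos : Pos ℓ (PP.H75.push p (fun t : Subgroup.normalizer (Q : Set G) => br Q e t))
      (p.comp (Subgroup.inclusion hCN)).range := by
    rw [push_cent p hCN]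
    exact pos_push hpug hF hQcard hQcen hker heC hduc
  have hid := PP.H75.push_isIdem hp hf
  refine CD2.Asm.d2a_ ℓ F hF A (p.comp (Subgroup.inclusion hCN)).range hnorm _ hid hpos ?_
  refine ⟨_, hid, ?_, hid.2, ?_⟩
  · intro x hx
    rw [push_cent p hCN]
    exact push_off _ _ hx
  · intro R _ hR hbr
    have hg : Gd (PP.H75.push p (fun t : Subgroup.normalizer (Q : Set G) => br Q e t)) R := by
      by_contra h0
      apply hbr
      funext t
      by_cases ht : t ∈ Subgroup.centralizer (R : Set A)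
      · rw [H66.br_of_mem ht]
        by_contra h1
        exact h0 ⟨t, ht, h1⟩
      · exact H66.br_of_not_mem ht
    have h1 := card_good hpug hF hQ hp hk hf hmx R hR hg
    obtain ⟨k, hk⟩ := (IsPGroup.iff_card.1 hR)
    rw [hk] at h1
    have h2 : k ≤ 1 := by
      by_contra h3
      have h4 : ℓ ^ 2 ≤ ℓ ^ k := Nat.pow_le_pow_right hpr.pos (by omega)
      have h5 : ℓ ^ 2 ≤ ℓ * 1 := by rw [mul_one]; exact h4.trans h1
      rw [pow_two] at h5
      have h6 := Nat.le_of_mul_le_mul_left h5 hpr.pos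
      exact absurd h6 (by have := hpr.two_le; omega)
    rcases Nat.le_one_iff_eq_zero_or_eq_one.1 h2 with h3 | h3
    · rw [h3, pow_zero] at hk
      have : Subsingleton R := (Nat.card_eq_one_iff_unique.1 hk).1
      exact isCyclic_of_subsingleton
    · rw [h3, pow_one] at hk
      exact isCyclic_of_prime_card hk

end yy

/-! ### 5. The identity -/

section idt

variable {F : Type} [Field F] {G A : Type} [Group G] [Finite G] [Group A] [Finite A]

theorem fz {ι : Sort*} {g : ι → ℤ} (h : ∀ i, g i = 0) : ∑ᶠ i : ι, g i = 0 :=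
  (finsum_congr h).trans finsum_zero

theorem comm_of_sq {ℓ : ℕ} [Fact ℓ.Prime] {W : Subgroup G} (hW : Nat.card W = ℓ ^ 2) :
    ∀ a ∈ W, ∀ b ∈ W, a * b = b * a := by
  have h1 := (IsPGroup.isMulCommutative_of_card_eq_prime_sq hW).is_comm.comm
  intro a ha b hb
  exact congrArg Subtype.val (h1 ⟨a, ha⟩ ⟨b, hb⟩)

theorem le_norm_of_sq {ℓ : ℕ} [Fact ℓ.Prime] {W Q : Subgroup G} (hW : Nat.card W = ℓ ^ 2)
    (hQW : Q ≤ W) : W ≤ Subgroup.normalizer (Q : Set G) := by
  refine le_trans ?_ (Subgroup.centralizer_le_normalizer _)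
  intro a ha
  rw [Subgroup.mem_centralizer_iff]
  intro b hb
  exact comm_of_sq hW b (hQW hb) a ha

open Classical in
theorem main_id (hexp : ExpStmt) (hlbr : LbrStmt) (hpug : PugStmt) {ℓ : ℕ} [Fact ℓ.Prime]
    (hF : GoodF ℓ F) {Q : Subgroup G}
    (hQ : Nat.card Q = ℓ) {p : Subgroup.normalizer (Q : Set G) →* A}
    (hp : Function.Surjective p) (hk : p.ker = Q.subgroupOf (Subgroup.normalizer (Q : Set G)))
    {e : G → F} (he : IsIdem e)
    (hf : IsIdem (fun t : Subgroup.normalizer (Q : Set G) => br Q e t))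
    (hmx : ∀ R : Subgroup G, IsPGroup ℓ R → Gd e R → Nat.card R ≤ ℓ ^ 2)
    (hyy : YY ℓ ⊤ (PP.H75.push p (fun t : Subgroup.normalizer (Q : Set G) => br Q e t)) = 0) :
    (Nat.card (Subgroup.normalizer (Q : Set G)) : ℤ) * lnum (Subgroup.normalizer (Q : Set G)) e =
    ∑ᶠ (W : Subgroup G) (_ : Nat.card W = ℓ ^ 2 ∧ Q ≤ W),
      (Nat.card (Subgroup.normalizer (Q : Set G) ⊓ Subgroup.normalizer (W : Set G) :
        Subgroup G) : ℤ) *
        lnum (Subgroup.normalizer (Q : Set G) ⊓ Subgroup.normalizer (W : Set G)) e := by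
  have hpr : ℓ.Prime := Fact.out
  have hfinG : Fintype (Subgroup G) := Fintype.ofFinite _
  have hfinA : Fintype (Subgroup A) := Fintype.ofFinite _
  have hQp : IsPGroup ℓ Q := IsPGroup.of_card (n := 1) (by rw [hQ, pow_one])
  have hkc : Nat.card p.ker = ℓ := by
    rw [hk, ← hQ]
    exact Nat.card_congr (Subgroup.subgroupOfEquivOfLe Subgroup.le_normalizer).toEquiv
  have hkp : IsPGroup ℓ p.ker := IsPGroup.of_card (n := 1) (by rw [hkc, pow_one])
  have hid := PP.H75.push_isIdem hp hf
  have hgd := card_good hpug hF hQ hp hk hf hmx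
  obtain ⟨f', hf'⟩ : ∃ f' : A → F,
      f' = PP.H75.push p (fun t : Subgroup.normalizer (Q : Set G) => br Q e t) := ⟨_, rfl⟩
  rw [← hf'] at hid hgd hyy
  have hlt : ℓ < ℓ ^ 2 := by
    rw [pow_two]
    exact lt_mul_of_one_lt_left hpr.pos hpr.one_lt
  have hE := hexp ℓ F hF A f' hid (fun R hR hg => (hgd R hR hg).trans hlt.le)
  rw [hyy] at hE
  -- the terms with a subgroup of order `ℓ ^ 2`
  have hbad : ∀ V : Subgroup A, Nat.card V = ℓ ^ 2 → ¬ Gd f' V := by
    intro V hV hg
    have := hgd V (IsPGroup.of_card (n := 2) hV) hg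
    rw [hV] at this
    exact absurd hlt (not_lt.2 this)
  have e1 : ∑ᶠ (V : Subgroup A) (_ : Nat.card V = ℓ ^ 2),
        (Nat.card (Subgroup.normalizer (V : Set A)) : ℤ) *
          lnum (Subgroup.normalizer (V : Set A)) f' = 0 := by
    refine fz fun V => fz fun hV => ?_
    rw [(hlbr ℓ F hF A f' hid V (Subgroup.normalizer (V : Set A)) (IsPGroup.of_card (n := 2) hV)
      Subgroup.le_normalizer le_rfl).2 (hbad V hV), Nat.cast_zero, mul_zero]
  have e2 : ∑ᶠ (Q : Subgroup A) (_ : Nat.card Q = ℓ), ∑ᶠ (V : Subgroup A)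
        (_ : Nat.card V = ℓ ^ 2 ∧ Q ≤ V),
        (Nat.card (Subgroup.normalizer (Q : Set A) ⊓ Subgroup.normalizer (V : Set A) :
          Subgroup A) : ℤ) *
          lnum (Subgroup.normalizer (Q : Set A) ⊓ Subgroup.normalizer (V : Set A)) f' = 0 := by
    refine fz fun R => fz fun _ =>
      fz fun V => fz fun hV => ?_
    rw [(hlbr ℓ F hF A f' hid V (Subgroup.normalizer (R : Set A) ⊓
      Subgroup.normalizer (V : Set A)) (IsPGroup.of_card (n := 2) hV.1)
      (le_inf (le_norm_of_sq hV.1 hV.2) Subgroup.le_normalizer) inf_le_right).2 (hbad V hV.1),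
      Nat.cast_zero, mul_zero]
  rw [e1, e2, add_zero, sub_zero] at hE
  have hE2 : (Nat.card A : ℤ) * lnum (⊤ : Subgroup A) f' =
      ∑ᶠ (R : Subgroup A) (_ : Nat.card R = ℓ),
        (Nat.card (Subgroup.normalizer (R : Set A)) : ℤ) *
          lnum (Subgroup.normalizer (R : Set A)) f' := (sub_eq_zero.1 hE.symm)
  -- the left side
  have hL : (Nat.card (Subgroup.normalizer (Q : Set G)) : ℤ) *
      lnum (Subgroup.normalizer (Q : Set G)) e =
      (ℓ : ℤ) * ((Nat.card A : ℤ) * lnum (⊤ : Subgroup A) f') := by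
    have h1 := card_up hp (⊤ : Subgroup A)
    have h2 := lnum_up hF hp hkp (⊤ : Subgroup A) (br Q e)
    rw [up_top, hkc, Subgroup.card_top] at h1
    rw [up_top, ← hf'] at h2
    rw [(hlbr ℓ F hF G e he Q (Subgroup.normalizer (Q : Set G)) hQp Subgroup.le_normalizer
      le_rfl).1, h2, h1]
    push_cast
    ring
  rw [hL, hE2, finsum_eq_sum_of_fintype, finsum_eq_sum_of_fintype]
  simp only [finsum_eq_if]
  rw [← Finset.sum_filter, ← Finset.sum_filter, Finset.mul_sum]
  have hQup : ∀ R : Subgroup A, Q ≤ up p R := by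
    intro R x hx
    rw [mem_up]
    refine ⟨Subgroup.le_normalizer hx, ?_⟩
    have h1 : (⟨x, Subgroup.le_normalizer hx⟩ : Subgroup.normalizer (Q : Set G)) ∈ p.ker := by
      rw [hk]
      exact hx
    rw [MonoidHom.mem_ker.1 h1]
    exact R.one_mem
  have hcm : ∀ W : Subgroup G, Q ≤ W →
      ((W.subgroupOf (Subgroup.normalizer (Q : Set G))).map p).comap p =
        W.subgroupOf (Subgroup.normalizer (Q : Set G)) := by
    intro W hQW
    apply Subgroup.comap_map_eq_self
    rw [hk]
    intro x hx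
    exact hQW hx
  refine Finset.sum_nbij' (fun R => up p R)
    (fun W => (W.subgroupOf (Subgroup.normalizer (Q : Set G))).map p) ?_ ?_ ?_ ?_ ?_
  · intro R hR
    have h1 := (Finset.mem_filter.1 hR).2
    refine Finset.mem_filter.2 ⟨Finset.mem_univ _, ?_, hQup R⟩
    rw [card_up hp, hkc, h1, pow_two]
  · intro W hW
    obtain ⟨_, h1, h2⟩ := Finset.mem_filter.1 hW
    refine Finset.mem_filter.2 ⟨Finset.mem_univ _, ?_⟩
    have h3 := PP.H75.card_comap hp ((W.subgroupOf (Subgroup.normalizer (Q : Set G))).map p)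
    rw [hcm W h2, hkc, Nat.card_congr (Subgroup.subgroupOfEquivOfLe
      (le_norm_of_sq h1 h2)).toEquiv, h1, pow_two] at h3
    exact (Nat.eq_of_mul_eq_mul_left hpr.pos h3).symm
  · intro R _
    change ((up p R).subgroupOf (Subgroup.normalizer (Q : Set G))).map p = R
    rw [up_subgroupOf, Subgroup.map_comap_eq_self_of_surjective hp]
  · intro W hW
    obtain ⟨_, h1, h2⟩ := Finset.mem_filter.1 hW
    change up p ((W.subgroupOf (Subgroup.normalizer (Q : Set G))).map p) = W
    rw [up, hcm W h2, Subgroup.subgroupOf_map_subtype, inf_eq_left.2 (le_norm_of_sq h1 h2)]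
  · intro R hR
    have h1 := card_up hp (Subgroup.normalizer (R : Set A))
    have h2 := lnum_up hF hp hkp (Subgroup.normalizer (R : Set A)) (br Q e)
    rw [up_norm hp, hkc] at h1
    rw [up_norm hp, ← hf'] at h2
    rw [(hlbr ℓ F hF G e he Q (Subgroup.normalizer (Q : Set G) ⊓
      Subgroup.normalizer ((up p R : Subgroup G) : Set G)) hQp
      (le_inf Subgroup.le_normalizer ((hQup R).trans Subgroup.le_normalizer)) inf_le_left).1, h1, h2]
    push_cast
    ring

end idt

/-- CHQ -/
theorem chq (hexp : ExpStmt) (hlbr : LbrStmt) (hpug : PugStmt) (hduc : DucStmt) : ChqStmt := by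
  intro ℓ hℓ M _ hM G _ _ e he V hV hVc Q hQ
  have hF : GoodF ℓ (FF M) := H50.fld ℓ hℓ.out M hM
  have hQp : IsPGroup ℓ Q := IsPGroup.of_card (n := 1) (by rw [hQ, pow_one])
  have hf : IsIdem (fun t : Subgroup.normalizer (Q : Set G) => br Q e t) :=
    (H20.brm ℓ (FF M) hF G Q (Subgroup.normalizer (Q : Set G)) hQp
      (Subgroup.centralizer_le_normalizer _) le_rfl).2.2 e he.1
  have hmx : ∀ R : Subgroup G, IsPGroup ℓ R → Gd e R → Nat.card R ≤ ℓ ^ 2 :=
    fun R h1 h2 => hVc ▸ hV.mx R h1 h2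
  have hk : (QuotientGroup.mk' (Q.subgroupOf (Subgroup.normalizer (Q : Set G)))).ker =
      Q.subgroupOf (Subgroup.normalizer (Q : Set G)) := QuotientGroup.ker_mk' _
  refine main_id hexp hlbr hpug hF hQ (QuotientGroup.mk'_surjective _) hk he.1 hf hmx ?_
  exact yy_zero hpug hF hQ (QuotientGroup.mk'_surjective _) hk he.1 hf hmx
    (fun g h1 h2 => hduc ℓ M hM G e he V hV hVc Q hQ g h1 h2)

end Pool.Agent.PP.K9.H35
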