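import Pool.Agent.Helper57_K9.Stmts
import Pool.Agent.Helper50_PP.Ffa
import Pool.Agent.Helper9_BN.Ch
import Pool.Agent.Helper96_PP.Trn

/-!
# Squad K9, row CHV: the alternating sum for a defect group of order `ℓ ^ 2`
-/

open scoped BigOperators

set_option linter.unusedSectionVars false

noncomputable section

namespace Pool.Agent.PP.K9.H35

open Pool.Agent.Helper51_AWC Pool.Agent.Helper79_WRA Pool.Agent.PP Pool.Agent.PP.KF

attribute [local instance] Ideal.Quotient.field

section gen

variable {F : Type} [Field F] {G : Type} [Group G] [Finite G]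

theorem lnum_conjS {e : G → F} (he : IsCl e) (g : G) (X : Subgroup G) :
    lnum (conjS g X) e = lnum X e := by
  rw [conjS, PP.H75.lnum_map _ (MulAut.conj g).injective]
  have h4 : (fun x => e ((MulAut.conj g).toMonoidHom x)) = e := by
    funext x
    exact he x g
  rw [h4]

theorem lnum_top (e : G → F) :
    lnum (⊤ : Subgroup G) e = {f : G → F | f ∈ IBr F G ∧ actF e f = f}.ncard := by
  rw [PP.H75.lnum_eq]
  exact PP.H75.cnt_equiv Subgroup.topEquiv e

/-- `W` is a conjugate of `V` -/
def CJ (V W : Subgroup G) : Prop := ∃ g : G, W = conjS g V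

open Classical in
/-- the number of conjugates of `V` -/
theorem card_conj [Fintype (Subgroup G)] (V : Subgroup G) :
    (Finset.univ.filter (fun W : Subgroup G => CJ V W)).card *
      Nat.card (Subgroup.normalizer (V : Set G)) = Nat.card G := by
  obtain ⟨C, hC⟩ : ∃ C : Finset (Subgroup G),
      C = Finset.univ.filter (fun W : Subgroup G => CJ V W) := ⟨_, rfl⟩
  rw [← hC]
  have := Fintype.ofFinite G
  have h1 : Fintype.card G = ∑ W ∈ C, (Finset.univ.filter fun g : G => conjS g V = W).card := by
    rw [← Finset.card_univ]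
    exact Finset.card_eq_sum_card_fiberwise
      (fun g _ => by
        rw [hC]
        exact Finset.mem_coe.2 (Finset.mem_filter.2 ⟨Finset.mem_univ _, g, rfl⟩))
  have h2 : ∀ W ∈ C, (Finset.univ.filter fun g : G => conjS g V = W).card =
      Nat.card (Subgroup.normalizer (V : Set G)) := by
    intro W hW
    rw [hC] at hW
    obtain ⟨-, k, rfl⟩ := Finset.mem_filter.1 hW
    rw [← BN.H9.card_fib V k, Nat.card_eq_fintype_card, Fintype.card_subtype]
  rw [Finset.sum_congr rfl h2, Finset.sum_const, smul_eq_mul] at h1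
  rw [Nat.card_eq_fintype_card (α := G), h1]

end gen

theorem chv (hexp : ExpStmt) (hchq : ChqStmt) (hlbr : LbrStmt) (hfmg : FmgStmt) : ChvStmt := by
  classical
  intro ℓ hℓ M _ hM G _ _ e he V hV hVc
  have hF : GoodF ℓ (FF M) := H50.fld ℓ hℓ.out M hM
  have hfin : Fintype (Subgroup G) := Fintype.ofFinite _
  have hmx : ∀ Q : Subgroup G, IsPGroup ℓ Q → Gd e Q → Nat.card Q ≤ ℓ ^ 2 :=
    fun Q h1 h2 => hVc ▸ hV.mx Q h1 h2
  rw [hexp ℓ (FF M) hF G e he.1 hmx]
  -- the terms with a subgroup of order `ℓ`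
  have hQ : ∑ᶠ (Q : Subgroup G) (_ : Nat.card Q = ℓ),
        (Nat.card (Subgroup.normalizer (Q : Set G)) : ℤ) *
          lnum (Subgroup.normalizer (Q : Set G)) e =
      ∑ᶠ (Q : Subgroup G) (_ : Nat.card Q = ℓ), ∑ᶠ (V : Subgroup G)
        (_ : Nat.card V = ℓ ^ 2 ∧ Q ≤ V),
        (Nat.card (Subgroup.normalizer (Q : Set G) ⊓ Subgroup.normalizer (V : Set G) :
          Subgroup G) : ℤ) *
          lnum (Subgroup.normalizer (Q : Set G) ⊓ Subgroup.normalizer (V : Set G)) e := by
    refine finsum_congr fun Q => finsum_congr fun hQ => ?_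
    exact hchq ℓ M hM G e he V hV hVc Q hQ
  rw [← hQ]
  -- the terms with a subgroup of order `ℓ ^ 2`
  have hW : ∑ᶠ (W : Subgroup G) (_ : Nat.card W = ℓ ^ 2),
        (Nat.card (Subgroup.normalizer (W : Set G)) : ℤ) *
          lnum (Subgroup.normalizer (W : Set G)) e =
      (Nat.card G : ℤ) * (lnum (Subgroup.normalizer (V : Set G)) e : ℤ) := by
    rw [finsum_eq_sum_of_fintype]
    simp only [finsum_eq_if]
    rw [← Finset.sum_filter]
    have h1 : Finset.univ.filter (fun W : Subgroup G => CJ V W) ⊆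
        Finset.univ.filter (fun W : Subgroup G => Nat.card W = ℓ ^ 2) := by
      intro W hW
      obtain ⟨-, g, rfl⟩ := Finset.mem_filter.1 hW
      exact Finset.mem_filter.2 ⟨Finset.mem_univ _, (card_conjS g V).trans hVc⟩
    rw [← Finset.sum_subset h1]
    · have h2 : ∀ W ∈ Finset.univ.filter (fun W : Subgroup G => CJ V W),
          (Nat.card (Subgroup.normalizer (W : Set G)) : ℤ) *
            lnum (Subgroup.normalizer (W : Set G)) e =
          (Nat.card (Subgroup.normalizer (V : Set G)) : ℤ) *
            lnum (Subgroup.normalizer (V : Set G)) e := by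
        intro W hW
        obtain ⟨-, g, rfl⟩ := Finset.mem_filter.1 hW
        rw [BN.H9.norm_conjS, card_conjS, lnum_conjS he.1.1]
      rw [Finset.sum_congr rfl h2, Finset.sum_const, nsmul_eq_mul, ← mul_assoc,
        ← card_conj V]
      push_cast
      ring
    · intro W hW hW2
      obtain ⟨-, hWc⟩ := Finset.mem_filter.1 hW
      have hWp : IsPGroup ℓ W := IsPGroup.of_card (n := 2) hWc
      have h3 : ¬ Gd e W := by
        intro hg
        obtain ⟨g, hg2⟩ := (hfmg ℓ M hM G e he V hV).1 W hWp hg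
        apply hW2
        refine Finset.mem_filter.2 ⟨Finset.mem_univ _, g, ?_⟩
        refine Subgroup.eq_of_le_of_card_ge hg2 ?_
        rw [card_conjS, hVc, hWc]
      rw [(hlbr ℓ (FF M) hF G e he.1 W (Subgroup.normalizer (W : Set G)) hWp
        Subgroup.le_normalizer le_rfl).2 h3, Nat.cast_zero, mul_zero]
  rw [hW, lnum_top, (hlbr ℓ (FF M) hF G e he.1 V (Subgroup.normalizer (V : Set G)) hV.pg
    Subgroup.le_normalizer le_rfl).1]
  have h5 : lnum (Subgroup.normalizer (V : Set G)) (br V e) =
      {f : Subgroup.normalizer (V : Set G) → FF M |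
      f ∈ IBr (FF M) (Subgroup.normalizer (V : Set G)) ∧
      actF (fun t : Subgroup.normalizer (V : Set G) => br V e t) f = f}.ncard := rfl
  rw [← h5]
  ring

end Pool.Agent.PP.K9.H35
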